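import Pool.Agent.Lib.MP_c7b0ca_al_h12.Wr

/-!
The two-generator soluble group with infinite verbal width.
-/

namespace VerbalWidth

open Matrix Pool.Agent.Lib.MP_c7b0ca_al
open scoped commutatorElement

variable {p m : ℕ} {k : ℕ} (θ : FreeGroup (Fin k) →* UT p (m + 2))

/-- the function listing all `k_a^{(t)}` -/
def ff (x : Multiplicative ℤ) : KK p m :=
  match (Encodable.decode (Multiplicative.toAdd x).toNat : Option (Fin k × ℕ)) with
  | some (a, t) => ka θ a t
  | none => 1

theorem ff_encode (a : Fin k) (t : ℕ) :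
    ff θ (Multiplicative.ofAdd ((Encodable.encode (a, t) : ℕ) : ℤ)) = ka θ a t := by
  rw [ff]
  simp only [toAdd_ofAdd, Int.toNat_natCast, Encodable.encodek]

/-- first generator -/
def g1 : WW p m := ⟨1, Multiplicative.ofAdd 1⟩

/-- second generator -/
def g2 : WW p m := ⟨ff θ, 1⟩

/-- the two-generator group -/
def GG : Subgroup (WW p m) := Subgroup.closure {g1, g2 θ}

theorem g1_zpow (n : ℤ) : (g1 : WW p m) ^ n = ⟨1, Multiplicative.ofAdd n⟩ := by
  have h : (g1 : WW p m) = RegularWreathProduct.inl (Multiplicative.ofAdd 1) := rfl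
  rw [h, ← map_zpow, ← ofAdd_zsmul, smul_eq_mul, mul_one]
  rfl

/-- the elements of `GG` in the base group with prescribed coordinate -/
def ga (a : Fin k) (t : ℕ) : GG θ :=
  let n : ℤ := (Encodable.encode (a, t) : ℕ)
  ⟨g1 ^ (-n) * g2 θ * g1 ^ n, by
    have h1 : (g1 : WW p m) ∈ GG θ := Subgroup.subset_closure (by simp)
    have h2 : g2 θ ∈ GG θ := Subgroup.subset_closure (by simp)
    exact mul_mem (mul_mem (zpow_mem h1 _) h2) (zpow_mem h1 _)⟩

theorem ga_right (a : Fin k) (t : ℕ) : ((ga θ a t : GG θ) : WW p m).right = 1 := by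
  change (g1 ^ (-_) * g2 θ * g1 ^ _ : WW p m).right = 1
  rw [RegularWreathProduct.mul_right, RegularWreathProduct.mul_right, g1_zpow, g1_zpow]
  simp only [g2, mul_one, ← ofAdd_add, neg_add_cancel, ofAdd_zero]

theorem ga_left (a : Fin k) (t : ℕ) : ((ga θ a t : GG θ) : WW p m).left 1 = ka θ a t := by
  change (g1 ^ (-_) * g2 θ * g1 ^ _ : WW p m).left 1 = _
  rw [g1_zpow, g1_zpow]
  simp only [RegularWreathProduct.mul_left, Pi.mul_apply, g2, Pi.one_apply, one_mul, mul_one]
  rw [← ff_encode, ofAdd_neg, inv_inv]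

theorem lift_ga (v : FreeGroup (Fin k)) (t : ℕ) :
    ((FreeGroup.lift (fun a => ga θ a t) v : GG θ) : WW p m).right = 1 ∧
    ((FreeGroup.lift (fun a => ga θ a t) v : GG θ) : WW p m).left 1 =
      FreeGroup.lift (fun a => ka θ a t) v := by
  induction v using FreeGroup.induction_on with
  | C1 => exact ⟨by simp, by simp⟩
  | of a =>
    rw [FreeGroup.lift_apply_of, FreeGroup.lift_apply_of]
    exact ⟨ga_right θ a t, ga_left θ a t⟩
  | inv_of a _ =>
    rw [map_inv, map_inv, FreeGroup.lift_apply_of, FreeGroup.lift_apply_of]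
    refine ⟨?_, ?_⟩
    · rw [Subgroup.coe_inv, RegularWreathProduct.inv_right, ga_right, inv_one]
    · rw [Subgroup.coe_inv, left_inv _ (ga_right θ a t), ga_left]
  | mul x y hx hy =>
    rw [map_mul, map_mul]
    refine ⟨?_, ?_⟩
    · rw [Subgroup.coe_mul, RegularWreathProduct.mul_right, hx.1, hy.1, one_mul]
    · rw [Subgroup.coe_mul, left_mul _ _ hx.1, hx.2, hy.2]

/-- the elements of `v(GG)` of large rank -/
def yy (v : FreeGroup (Fin k)) : ℕ → GG θ
  | 0 => 1
  | N + 1 => yy v N * FreeGroup.lift (fun a => ga θ a N) v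

theorem yy_spec (v : FreeGroup (Fin k)) (N : ℕ) : yy θ v N ∈ verbalSubgroup v (GG θ) ∧
    ((yy θ v N : GG θ) : WW p m).right = 1 ∧ ((yy θ v N : GG θ) : WW p m).left 1 = zz θ v N := by
  induction N with
  | zero => exact ⟨one_mem _, rfl, rfl⟩
  | succ N ih =>
    refine ⟨?_, ?_, ?_⟩
    · exact mul_mem ih.1 (Subgroup.subset_closure ⟨_, rfl⟩)
    · rw [yy, Subgroup.coe_mul, RegularWreathProduct.mul_right, ih.2.1, (lift_ga θ v N).1, one_mul]
    · rw [yy, Subgroup.coe_mul, left_mul _ _ ih.2.1, ih.2.2, (lift_ga θ v N).2]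
      rfl

theorem main [Fact p.Prime] (v : FreeGroup (Fin k)) (hv1 : v ≠ 1)
    (hv : v ∈ Subgroup.closure (gens p (Fin k))) :
    ∃ (G : Type) (_ : Group G), Group.IsSolvable G ∧ (∃ x y : G, Subgroup.closure {x, y} = ⊤) ∧
      ∀ n : ℕ, ∃ z ∈ verbalSubgroup v G, ∀ y : Fin n → G,
        (∀ i, y i ∈ wordValues v G ∨ (y i)⁻¹ ∈ wordValues v G) → (List.ofFn y).prod ≠ z := by
  obtain ⟨m, θ, h1, h2, h3⟩ := exists_min (p := p) v hv1
  refine ⟨GG θ, inferInstance, ?_, ?_, ?_⟩
  · have := WW_solvable (p := p) (m := m)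
    infer_instance
  · have m1 : (g1 : WW p m) ∈ GG θ := Subgroup.subset_closure (by simp)
    have m2 : g2 θ ∈ GG θ := Subgroup.subset_closure (by simp)
    refine ⟨⟨g1, m1⟩, ⟨g2 θ, m2⟩, ?_⟩
    rw [← Subgroup.map_injective (GG θ).subtype_injective |>.eq_iff]
    rw [MonoidHom.map_closure, ← MonoidHom.range_eq_map, Subgroup.range_subtype]
    rw [Set.image_pair]
    rfl
  · intro n
    obtain ⟨C, hC⟩ := value_low (m := m) v hv
    obtain ⟨a1, a2, a3⟩ := yy_spec θ v (n * (C + 2 * m) + 1)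
    refine ⟨yy θ v (n * (C + 2 * m) + 1), a1, fun y hy hcon => ?_⟩
    have b1 := prod_low v C hC (List.ofFn (fun i => ((y i : GG θ) : WW p m))) (by
      intro w hw
      obtain ⟨i, rfl⟩ := (List.mem_ofFn' _ _).1 hw
      rcases hy i with ⟨g, hg⟩ | ⟨g, hg⟩
      · left
        refine ⟨fun a => (g a : WW p m), ?_⟩
        beta_reduce
        rw [← hg]
        have : FreeGroup.lift (fun a => ((g a : GG θ) : WW p m)) =
            (GG θ).subtype.comp (FreeGroup.lift g) := by
          refine FreeGroup.ext_hom _ _ fun a => ?_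
          simp
        rw [this]
        rfl
      · right
        refine ⟨fun a => (g a : WW p m), ?_⟩
        have h5 : ((y i : GG θ) : WW p m)⁻¹ = (((y i)⁻¹ : GG θ) : WW p m) := rfl
        beta_reduce
        rw [h5, ← hg]
        have : FreeGroup.lift (fun a => ((g a : GG θ) : WW p m)) =
            (GG θ).subtype.comp (FreeGroup.lift g) := by
          refine FreeGroup.ext_hom _ _ fun a => ?_
          simp
        rw [this]
        rfl)
    have b2 : (List.ofFn (fun i => ((y i : GG θ) : WW p m))).prod =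
        ((yy θ v (n * (C + 2 * m) + 1) : GG θ) : WW p m) := by
      rw [← hcon]
      have := map_list_prod (GG θ).subtype (List.ofFn y)
      rw [List.map_ofFn] at this
      exact this.symm
    rw [b2, a3, List.length_ofFn] at b1
    have b3 := RankLe.bound b1.2 (cor (θ v)) h3 (N := n * (C + 2 * m) + 1) (by
      intro s t hs ht
      rw [(zz_spec θ v h1 h2 _ s t).2.2]
      simp [hs])
    omega

end VerbalWidth
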