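import Pool.Agent.Lib.MP_c7b0ca_al_h12.Sc

/-!
The group `KK` and the rank of its corner entry.
-/

namespace VerbalWidth

open Matrix
open scoped commutatorElement

variable {p : ℕ}

/-- `Z` is a sum of `d` products. -/
def RankLe (d : ℕ) (Z : ℕ → ℕ → ZMod p) : Prop :=
  ∃ A B : Fin d → ℕ → ZMod p, ∀ s t, Z s t = ∑ k, A k s * B k t

theorem RankLe.zero : RankLe 0 (fun _ _ => (0 : ZMod p)) :=
  ⟨fun _ _ => 0, fun _ _ => 0, fun s t => by simp⟩

theorem RankLe.congr {d : ℕ} {Z Z' : ℕ → ℕ → ZMod p} (h : RankLe d Z) (hZ : ∀ s t, Z' s t = Z s t) :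
    RankLe d Z' := by
  obtain ⟨A, B, hAB⟩ := h
  exact ⟨A, B, fun s t => by rw [hZ, hAB]⟩

theorem RankLe.add {d d' : ℕ} {Z Z' : ℕ → ℕ → ZMod p} (h : RankLe d Z) (h' : RankLe d' Z') :
    RankLe (d + d') (fun s t => Z s t + Z' s t) := by
  obtain ⟨A, B, hAB⟩ := h
  obtain ⟨A', B', hAB'⟩ := h'
  refine ⟨Fin.append A A', Fin.append B B', fun s t => ?_⟩
  beta_reduce
  rw [Fin.sum_univ_add, hAB, hAB']
  simp [Fin.append_left, Fin.append_right]

theorem RankLe.neg {d : ℕ} {Z : ℕ → ℕ → ZMod p} (h : RankLe d Z) :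
    RankLe d (fun s t => - Z s t) := by
  obtain ⟨A, B, hAB⟩ := h
  refine ⟨fun k s => - A k s, B, fun s t => ?_⟩
  simp only [hAB, neg_mul, Finset.sum_neg_distrib]

theorem RankLe.zero' (d : ℕ) : RankLe d (fun _ _ => (0 : ZMod p)) :=
  ⟨fun _ _ => 0, fun _ _ => 0, fun s t => by simp⟩

theorem RankLe.mono {d d' : ℕ} {Z : ℕ → ℕ → ZMod p} (h : RankLe d Z) (hd : d ≤ d') :
    RankLe d' Z := by
  have h1 := h.add (RankLe.zero' (p := p) (d' - d))
  rw [Nat.add_sub_cancel' hd] at h1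
  exact h1.congr fun s t => by rw [add_zero]

/-- the identity matrix has large rank -/
theorem RankLe.bound [Fact p.Prime] {d N : ℕ} {Z : ℕ → ℕ → ZMod p} (h : RankLe d Z) (κ : ZMod p)
    (hκ : κ ≠ 0) (hZ : ∀ s t, s < N → t < N → Z s t = if s = t then κ else 0) : N ≤ d := by
  obtain ⟨A, B, hAB⟩ := h
  let MA : Matrix (Fin N) (Fin d) (ZMod p) := Matrix.of fun s k => A k s
  let MB : Matrix (Fin d) (Fin N) (ZMod p) := Matrix.of fun k t => B k t
  have h1 : MA * MB = κ • (1 : Matrix (Fin N) (Fin N) (ZMod p)) := by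
    ext s t
    rw [Matrix.mul_apply, Matrix.smul_apply, Matrix.one_apply]
    have h2 := hZ s t s.2 t.2
    rw [hAB] at h2
    simp only [MA, MB, Matrix.of_apply]
    rw [h2]
    by_cases h3 : s = t
    · subst h3; simp
    · have : ¬ ((s : ℕ) = t) := fun h => h3 (Fin.ext h)
      simp [h3, this]
  have h2 : (MA * MB).rank = N := by
    rw [h1, Matrix.rank_of_isUnit]
    · simp
    · refine ⟨⟨κ • 1, κ⁻¹ • 1, ?_, ?_⟩, rfl⟩
      · simp [smul_smul, hκ]
      · simp [smul_smul, hκ]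
  have h3 : (MA * MB).rank ≤ MA.rank := Matrix.rank_mul_le_left _ _
  have h4 : MA.rank ≤ d := by
    have := Matrix.rank_le_width MA
    simpa using this
  omega

/-- matrices with first rows depending only on `s` and last columns depending only on `t` -/
def KK (p m : ℕ) : Subgroup (ℕ → ℕ → UT p (m + 2)) where
  carrier := {g | (∀ s t t', q1 _ (g s t) = q1 _ (g s t')) ∧
    (∀ s s' t, q2 _ (g s t) = q2 _ (g s' t))}
  one_mem' := ⟨fun _ _ _ => rfl, fun _ _ _ => rfl⟩
  mul_mem' := by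
    rintro a b ⟨ha, ha'⟩ ⟨hb, hb'⟩
    refine ⟨fun s t t' => ?_, fun s s' t => ?_⟩
    · change q1 _ (a s t * b s t) = q1 _ (a s t' * b s t')
      rw [map_mul, map_mul, ha s t t', hb s t t']
    · change q2 _ (a s t * b s t) = q2 _ (a s' t * b s' t)
      rw [map_mul, map_mul, ha' s s' t, hb' s s' t]
  inv_mem' := by
    rintro a ⟨ha, ha'⟩
    refine ⟨fun s t t' => ?_, fun s s' t => ?_⟩
    · change q1 _ (a s t)⁻¹ = q1 _ (a s t')⁻¹
      rw [map_inv, map_inv, ha s t t']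
    · change q2 _ (a s t)⁻¹ = q2 _ (a s' t)⁻¹
      rw [map_inv, map_inv, ha' s s' t]

variable {m : ℕ}

/-- the corner entries -/
def ck (g : KK p m) (s t : ℕ) : ZMod p := cor (g.1 s t)

/-- evaluation -/
def ev (s t : ℕ) : KK p m →* UT p (m + 2) where
  toFun g := g.1 s t
  map_one' := rfl
  map_mul' _ _ := rfl

theorem ck_one (s t : ℕ) : ck (1 : KK p m) s t = 0 := by
  have h : cor (1 : UT p (m + 2)) = 0 := by
    rw [cor, en_one, if_neg (by simp [Fin.ext_iff])]
  exact h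

theorem ck_mul (g h : KK p m) : RankLe m (fun s t => ck (g * h) s t - ck g s t - ck h s t) := by
  refine ⟨fun j s => rw1 j (q1 _ (g.1 s 0)), fun j t => cl1 j (q2 _ (h.1 0 t)), fun s t => ?_⟩
  beta_reduce
  have h1 : ck (g * h) s t = cor (g.1 s t * h.1 s t) := rfl
  rw [h1, cor_mul]
  simp only [ck]
  have h2 : ∀ j : Fin m, rw1 j (q1 _ (g.1 s t)) * cl1 j (q2 _ (h.1 s t)) =
      rw1 j (q1 _ (g.1 s 0)) * cl1 j (q2 _ (h.1 0 t)) := fun j => by
    rw [g.2.1 s t 0, h.2.2 s 0 t]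
  rw [Finset.sum_congr rfl fun j _ => h2 j]
  ring

theorem ck_mul_low {d d' : ℕ} {g h : KK p m} {X Y : ℕ → ℕ → ZMod p}
    (hg : RankLe d (fun s t => ck g s t - X s t)) (hh : RankLe d' (fun s t => ck h s t - Y s t)) :
    RankLe (d + d' + m) (fun s t => ck (g * h) s t - (X s t + Y s t)) :=
  ((hg.add hh).add (ck_mul g h)).congr fun s t => by ring

theorem ck_self (g : KK p m) : RankLe 0 (fun s t => ck g s t - ck g s t) :=
  RankLe.zero.congr fun s t => by ring

theorem ck_inv (g : KK p m) : RankLe m (fun s t => ck g⁻¹ s t - (- ck g s t)) := by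
  have h := (ck_mul g g⁻¹).neg
  refine h.congr fun s t => ?_
  rw [mul_inv_cancel, ck_one]
  ring

theorem ck_inv_low {d : ℕ} {g : KK p m} (hg : RankLe d (ck g)) : RankLe (d + m) (ck g⁻¹) :=
  (hg.neg.add (ck_inv g)).congr fun s t => by ring

theorem ck_mul_low' {d d' : ℕ} {g h : KK p m} (hg : RankLe d (ck g)) (hh : RankLe d' (ck h)) :
    RankLe (d + d' + m) (ck (g * h)) :=
  (ck_mul_low (X := fun _ _ => 0) (Y := fun _ _ => 0) (hg.congr fun s t => by ring)
    (hh.congr fun s t => by ring)).congr fun s t => by ring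

theorem ck_comm (g h : KK p m) : RankLe (5 * m) (ck ⁅g, h⁆) := by
  rw [commutatorElement_def]
  have h1 := ck_mul_low (ck_mul_low (ck_mul_low (ck_self g) (ck_self h)) (ck_inv g)) (ck_inv h)
  exact (h1.congr (Z' := ck (g * h * g⁻¹ * h⁻¹)) fun s t => by ring).mono (by omega)

theorem ck_pow (g : KK p m) (n : ℕ) :
    RankLe (n * m) (fun s t => ck (g ^ n) s t - (n : ZMod p) * ck g s t) := by
  induction n with
  | zero =>
    refine (RankLe.zero' _).congr fun s t => ?_
    rw [pow_zero, ck_one]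
    simp
  | succ n ih =>
    have h1 := ck_mul_low ih (ck_self g)
    rw [pow_succ]
    refine (h1.congr fun s t => ?_).mono (by rw [add_zero, Nat.succ_mul])
    push_cast
    ring

theorem ck_pow_p (g : KK p m) : RankLe (p * m) (ck (g ^ p)) := by
  refine (ck_pow g p).congr fun s t => ?_
  rw [CharP.cast_eq_zero, zero_mul, sub_zero]

end VerbalWidth
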