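import Pool.Agent.Lib.MP_c7b0ca_al_h12.UT

/-!
Free groups are residually unitriangular over `ZMod p`.
-/

namespace VerbalWidth

open Matrix

variable {p : ℕ} [Fact p.Prime]

open Classical in
/-- identity plus some entries on the first superdiagonal -/
noncomputable def EM (p l : ℕ) (S : ℕ → Prop) : TM p (l + 1) :=
  ⟨fun i j => if i = j then 1 else if (j : ℕ) = i + 1 ∧ S i then 1 else 0, by
    intro i j hij
    by_cases h : i = j
    · simp [h]
    · have h2 : ¬ ((j : ℕ) = i + 1 ∧ S i) := by
        rintro ⟨h3, -⟩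
        have : (j : ℕ) ≤ i := hij
        omega
      simp only [if_neg h, if_neg h2]⟩

/-- the action on vectors -/
def act {n : ℕ} (g : UT p n) (φ : Fin n → ZMod p) : Fin n → ZMod p := g.val.1.mulVec φ

omit [Fact p.Prime] in
theorem act_mul {n : ℕ} (g h : UT p n) (φ : Fin n → ZMod p) : act (g * h) φ = act g (act h φ) := by
  rw [act, act, act, Matrix.mulVec_mulVec]
  rfl

theorem act_one {n : ℕ} (φ : Fin n → ZMod p) : act (1 : UT p n) φ = φ := by
  rw [act, Units.val_one, Submonoid.coe_one, Matrix.one_mulVec]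

/-- the corresponding group element -/
noncomputable def EU (p l : ℕ) [Fact p.Prime] (S : ℕ → Prop) : UT p (l + 1) :=
  (TM_isUnit (EM p l S)).unit

open Classical in
theorem act_EU (l : ℕ) (S : ℕ → Prop) (φ : Fin (l + 1) → ZMod p) (i : Fin (l + 1)) :
    act (EU p l S) φ i = φ i + (if h : (i : ℕ) + 1 < l + 1 ∧ S i then φ ⟨i + 1, h.1⟩ else 0) := by
  have h0 : act (EU p l S) φ i =
      ∑ j, (if i = j then 1 else if (j : ℕ) = i + 1 ∧ S i then 1 else 0) * φ j := rfl
  rw [h0]
  have h1 : ∀ j : Fin (l + 1), (if i = j then (1 : ZMod p) else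
      if (j : ℕ) = i + 1 ∧ S i then 1 else 0) * φ j =
      (if i = j then φ j else 0) + (if (j : ℕ) = i + 1 ∧ S i then φ j else 0) := by
    intro j
    by_cases h : i = j
    · subst h
      have : ¬ ((i : ℕ) = i + 1 ∧ S i) := by omega
      simp
    · by_cases h2 : (j : ℕ) = i + 1 ∧ S i
      · simp [h, h2]
      · simp [h, h2]
  rw [Finset.sum_congr rfl fun j _ => h1 j, Finset.sum_add_distrib, Finset.sum_ite_eq]
  simp only [Finset.mem_univ, if_true]
  congr 1
  by_cases h : (i : ℕ) + 1 < l + 1 ∧ S i
  · rw [dif_pos h, Finset.sum_eq_single ⟨i + 1, h.1⟩]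
    · simp [h.2]
    · intro j _ hj
      rw [if_neg]
      rintro ⟨h3, -⟩
      exact hj (Fin.ext h3)
    · intro h3; exact absurd (Finset.mem_univ _) h3
  · rw [dif_neg h]
    refine Finset.sum_eq_zero fun j _ => ?_
    rw [if_neg]
    rintro ⟨h3, h4⟩
    exact h ⟨by have := j.2; omega, h4⟩

/-- `φ` vanishes before position `j` and is `1` at position `j` -/
def Supp {l : ℕ} (φ : Fin (l + 1) → ZMod p) (j : ℕ) : Prop :=
  (∀ i : Fin (l + 1), (i : ℕ) < j → φ i = 0) ∧ (∀ i : Fin (l + 1), (i : ℕ) = j → φ i = 1)

theorem supp_step {l : ℕ} (S T : ℕ → Prop) (j : ℕ) (hj : j < l) (hS : S j) (hT : ¬ T j)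
    (hT' : ¬ T (j + 1)) (φ : Fin (l + 1) → ZMod p) (hφ : Supp φ (j + 1)) :
    Supp (act (EU p l S * (EU p l T)⁻¹) φ) j := by
  classical
  set ψ := act (EU p l T)⁻¹ φ with hψ
  have h1 : act (EU p l T) ψ = φ := by
    rw [hψ, ← act_mul, mul_inv_cancel, act_one]
  have h2 : ∀ i : Fin (l + 1), φ i = ψ i +
      (if h : (i : ℕ) + 1 < l + 1 ∧ T i then ψ ⟨i + 1, h.1⟩ else 0) := by
    intro i
    rw [← act_EU, h1]
  have ha : ∀ i : Fin (l + 1), (i : ℕ) = j + 1 → ψ i = 1 := by
    intro i hi
    have h3 := h2 i
    rw [dif_neg (by rw [hi]; exact fun h => hT' h.2), add_zero, hφ.2 i hi] at h3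
    exact h3.symm
  have hb : ∀ d : ℕ, ∀ i : Fin (l + 1), (i : ℕ) + d = j → ψ i = 0 := by
    intro d
    induction d with
    | zero =>
      intro i hi
      have hi' : (i : ℕ) = j := by omega
      have h3 := h2 i
      rw [dif_neg (by rw [hi']; exact fun h => hT h.2), add_zero, hφ.1 i (by omega)] at h3
      exact h3.symm
    | succ d ih =>
      intro i hi
      have h3 := h2 i
      rw [hφ.1 i (by omega)] at h3
      by_cases h : (i : ℕ) + 1 < l + 1 ∧ T i
      · rw [dif_pos h, ih ⟨i + 1, h.1⟩ (by simp only; omega), add_zero] at h3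
        exact h3.symm
      · rw [dif_neg h, add_zero] at h3
        exact h3.symm
  rw [act_mul, ← hψ]
  refine ⟨fun i hi => ?_, fun i hi => ?_⟩
  · rw [act_EU, hb (j - i) i (by omega), zero_add]
    by_cases h : (i : ℕ) + 1 < l + 1 ∧ S i
    · rw [dif_pos h, hb (j - (i + 1)) ⟨i + 1, h.1⟩ (by simp only; omega)]
    · rw [dif_neg h]
  · rw [act_EU, hb 0 i (by omega), zero_add, dif_pos ⟨by omega, by rw [hi]; exact hS⟩]
    exact ha _ (by simp only; omega)

variable {α : Type*}

/-- the positions of a given letter -/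
def Sg (L : List (α × Bool)) (a : α) (b : Bool) (i : ℕ) : Prop := L[i]? = some (a, b)

/-- the matrices attached to a word -/
noncomputable def thet (p : ℕ) [Fact p.Prime] (L : List (α × Bool)) (a : α) :
    UT p (L.length + 1) :=
  EU p L.length (Sg L a true) * (EU p L.length (Sg L a false))⁻¹

/-- the last basis vector -/
def lastVec (p l : ℕ) : Fin (l + 1) → ZMod p := fun i => if (i : ℕ) = l then 1 else 0

theorem supp_word (L : List (α × Bool)) (hL : FreeGroup.IsReduced L) :
    ∀ k : ℕ, k ≤ L.length →
      Supp (act (FreeGroup.lift (thet p L) (FreeGroup.mk (L.drop (L.length - k))))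
        (lastVec p L.length)) (L.length - k) := by
  intro k
  induction k with
  | zero =>
    intro _
    rw [Nat.sub_zero, List.drop_length]
    have : FreeGroup.mk ([] : List (α × Bool)) = 1 := rfl
    rw [this, map_one, act_one]
    exact ⟨fun i hi => by rw [lastVec, if_neg (by omega)], fun i hi => by rw [lastVec, if_pos hi]⟩
  | succ k ih =>
    intro hk
    have ih' := ih (by omega)
    set j := L.length - (k + 1) with hj
    have hj1 : L.length - k = j + 1 := by omega
    have hjl : j < L.length := by omega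
    have hdrop : L.drop j = L[j] :: L.drop (j + 1) := List.drop_eq_getElem_cons hjl
    have hred : ∀ a b, L[j]? = some (a, b) → L[j + 1]? ≠ some (a, !b) := by
      intro a b h1 h2
      obtain ⟨h3, h4⟩ := List.getElem?_eq_some_iff.1 h1
      obtain ⟨h5, h6⟩ := List.getElem?_eq_some_iff.1 h2
      have h7 := List.isChain_iff_getElem.1 hL j h5
      rw [h4, h6] at h7
      have := h7 rfl
      cases b <;> simp at this
    rcases hab : L[j] with ⟨a, b⟩
    have hsome : L[j]? = some (a, b) := by
      rw [List.getElem?_eq_getElem hjl, hab]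
    have hlift : FreeGroup.lift (thet p L) (FreeGroup.mk (L.drop j)) =
        (bif b then thet p L a else (thet p L a)⁻¹) *
          FreeGroup.lift (thet p L) (FreeGroup.mk (L.drop (j + 1))) := by
      rw [hdrop, hab, FreeGroup.lift_mk, FreeGroup.lift_mk]
      simp
    rw [hj1] at ih'
    rw [hlift, act_mul]
    cases b with
    | true =>
      refine supp_step (Sg L a true) (Sg L a false) j hjl hsome ?_ (hred a true hsome) _ ih'
      intro h
      have h1 : some (a, true) = some (a, false) := hsome.symm.trans h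
      simp at h1
    | false =>
      have hinv : (bif false then thet p L a else (thet p L a)⁻¹) =
          EU p L.length (Sg L a false) * (EU p L.length (Sg L a true))⁻¹ := by
        rw [thet]
        simp
      rw [hinv]
      refine supp_step (Sg L a false) (Sg L a true) j hjl hsome ?_ (hred a false hsome) _ ih'
      intro h
      have h1 : some (a, false) = some (a, true) := hsome.symm.trans h
      simp at h1

/-- Free groups are residually unitriangular. -/
theorem exists_hom [DecidableEq α] (v : FreeGroup α) (hv : v ≠ 1) :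
    ∃ (n : ℕ) (θ : FreeGroup α →* UT p n), θ v ≠ 1 := by
  set L := v.toWord with hLdef
  have hL : FreeGroup.IsReduced L := FreeGroup.isReduced_toWord
  have hne : L ≠ [] := fun h => hv (FreeGroup.toWord_eq_nil_iff.1 h)
  have hlen : 0 < L.length := List.length_pos_iff.2 hne
  refine ⟨L.length + 1, FreeGroup.lift (thet p L), fun h => ?_⟩
  have h1 := supp_word (p := p) L hL L.length le_rfl
  rw [Nat.sub_self, List.drop_zero, FreeGroup.mk_toWord, h, act_one] at h1
  have h2 := h1.2 ⟨0, by omega⟩ rfl
  rw [lastVec, if_neg (by simp only; omega)] at h2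
  exact zero_ne_one h2

end VerbalWidth
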