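import Pool.Agent.Lib.MP_c7b0ca_al_h12.Res

/-!
Scaling of the first row and the last column of unitriangular matrices.
-/

namespace VerbalWidth

open Matrix

variable {p : ℕ}

/-- entrywise multiplication with a multiplicative weight -/
def scM {n : ℕ} (w : Fin n → Fin n → ZMod p) (hw1 : ∀ i, w i i = 1)
    (hw : ∀ i k j, i ≤ k → k ≤ j → w i k * w k j = w i j) : TM p n →* TM p n where
  toFun M := ⟨fun i j => w i j * M.1 i j, by
    intro i j hij
    by_cases h : i = j
    · subst h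
      simp only [hw1, one_mul, if_true]
      exact TM_diag M i
    · have h2 : j < i := lt_of_le_of_ne hij (Ne.symm h)
      simp only [if_neg h, TM_lower M h2, mul_zero]⟩
  map_one' := by
    apply Subtype.ext
    funext i j
    change w i j * (1 : Matrix (Fin n) (Fin n) (ZMod p)) i j = (1 : Matrix _ _ _) i j
    by_cases h : i = j
    · subst h
      rw [hw1, one_mul]
    · rw [Matrix.one_apply_ne h, mul_zero]
  map_mul' := by
    intro M N
    apply Subtype.ext
    funext i j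
    change w i j * (M.1 * N.1) i j =
      (Matrix.of (fun i j => w i j * M.1 i j) * Matrix.of (fun i j => w i j * N.1 i j)) i j
    rw [Matrix.mul_apply, Matrix.mul_apply, Finset.mul_sum]
    refine Finset.sum_congr rfl fun k _ => ?_
    rw [Matrix.of_apply, Matrix.of_apply]
    by_cases h1 : i ≤ k
    · by_cases h2 : k ≤ j
      · rw [← hw i k j h1 h2]
        ring
      · rw [TM_lower N (not_le.1 h2)]
        ring
    · rw [TM_lower M (not_le.1 h1)]
      ring

/-- the weight -/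
def wt {m : ℕ} (e f : ZMod p) (i j : Fin (m + 2)) : ZMod p :=
  (if i = 0 ∧ j ≠ 0 then e else 1) * (if i ≠ Fin.last _ ∧ j = Fin.last _ then f else 1)

theorem wt_diag {m : ℕ} (e f : ZMod p) (i : Fin (m + 2)) : wt e f i i = 1 := by
  rw [wt, if_neg (fun h => h.2 h.1), if_neg (fun h => h.1 h.2), one_mul]

theorem wt_mul {m : ℕ} (e f : ZMod p) (i k j : Fin (m + 2)) (h1 : i ≤ k) (h2 : k ≤ j) :
    wt e f i k * wt e f k j = wt e f i j := by
  have ha : (if i = 0 ∧ k ≠ 0 then e else 1) * (if k = 0 ∧ j ≠ 0 then e else 1) =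
      (if i = 0 ∧ j ≠ 0 then e else (1 : ZMod p)) := by
    by_cases hi : i = 0
    · by_cases hk : k = 0
      · simp [hi, hk]
      · have hj : j ≠ 0 := fun h => hk (le_antisymm (h ▸ h2) (Fin.zero_le _))
        simp [hi, hk, hj]
    · have hk : k ≠ 0 := fun h => hi (le_antisymm (h ▸ h1) (Fin.zero_le _))
      simp [hi, hk]
  have hb : (if i ≠ Fin.last _ ∧ k = Fin.last _ then f else 1) *
      (if k ≠ Fin.last _ ∧ j = Fin.last _ then f else 1) =
      (if i ≠ Fin.last _ ∧ j = Fin.last _ then f else (1 : ZMod p)) := by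
    by_cases hj : j = Fin.last _
    · by_cases hk : k = Fin.last _
      · simp [hj, hk]
      · have hi : i ≠ Fin.last _ := fun h => hk (le_antisymm (Fin.le_last _) (h ▸ h1))
        simp [hi, hk, hj]
    · have hk : k ≠ Fin.last _ := fun h => hj (le_antisymm (Fin.le_last _) (h ▸ h2))
      simp [hj, hk]
  rw [wt, wt, wt, ← ha, ← hb]
  ring

/-- scaling of first row and last column -/
def sc {m : ℕ} (e f : ZMod p) : UT p (m + 2) →* UT p (m + 2) :=
  Units.map (scM (wt e f) (wt_diag e f) (wt_mul e f))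

theorem en_sc {m : ℕ} (e f : ZMod p) (g : UT p (m + 2)) (i j : Fin (m + 2)) :
    en (sc e f g) i j = wt e f i j * en g i j := rfl

theorem q1_sc {m : ℕ} (e f f' : ZMod p) (g : UT p (m + 2)) :
    q1 _ (sc e f g) = q1 _ (sc e f' g) := by
  refine UT_ext fun i j => ?_
  rw [en_q1, en_q1, en_sc, en_sc]
  congr 1
  rw [wt, wt, if_neg (c := i.castSucc ≠ Fin.last _ ∧ _) (fun h => (Fin.castSucc_ne_last _) h.2),
    if_neg (c := i.castSucc ≠ Fin.last _ ∧ _) (fun h => (Fin.castSucc_ne_last _) h.2)]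

theorem q2_sc {m : ℕ} (e e' f : ZMod p) (g : UT p (m + 2)) :
    q2 _ (sc e f g) = q2 _ (sc e' f g) := by
  refine UT_ext fun i j => ?_
  rw [en_q2, en_q2, en_sc, en_sc]
  congr 1

theorem cor_sc {m : ℕ} (e f : ZMod p) (g : UT p (m + 2)) : cor (sc e f g) = e * f * cor g := by
  have h : (Fin.last (m + 1)) ≠ 0 := by simp [Fin.ext_iff]
  rw [cor, en_sc, wt, if_pos ⟨rfl, h⟩, if_pos ⟨h.symm, rfl⟩, cor]

theorem q1_sc_one {m : ℕ} (e f : ZMod p) (g : UT p (m + 2)) (h : q1 _ g = 1) :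
    q1 _ (sc e f g) = 1 := by
  refine UT_ext fun i j => ?_
  rw [en_q1, en_sc, ← en_q1, h, en_one]
  by_cases hij : i = j
  · subst hij
    rw [wt_diag, one_mul]
  · rw [if_neg hij, mul_zero]

theorem q2_sc_one {m : ℕ} (e f : ZMod p) (g : UT p (m + 2)) (h : q2 _ g = 1) :
    q2 _ (sc e f g) = 1 := by
  refine UT_ext fun i j => ?_
  rw [en_q2, en_sc, ← en_q2, h, en_one]
  by_cases hij : i = j
  · subst hij
    rw [wt_diag, one_mul]
  · rw [if_neg hij, mul_zero]

/-- The minimal representation of a word. -/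
theorem exists_min {α : Type*} [Fact p.Prime] [DecidableEq α] (v : FreeGroup α) (hv : v ≠ 1) :
    ∃ (m : ℕ) (θ : FreeGroup α →* UT p (m + 2)), q1 _ (θ v) = 1 ∧ q2 _ (θ v) = 1 ∧
      cor (θ v) ≠ 0 := by
  classical
  have hex := exists_hom (p := p) v hv
  obtain ⟨n, ⟨θ, hθ⟩, hmin⟩ : ∃ n, (∃ θ : FreeGroup α →* UT p n, θ v ≠ 1) ∧
      ∀ k < n, ∀ θ' : FreeGroup α →* UT p k, θ' v = 1 := by
    refine ⟨Nat.find hex, Nat.find_spec hex, fun k hk θ' => ?_⟩
    by_contra hcon
    exact Nat.find_min hex hk ⟨θ', hcon⟩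
  match n, θ, hθ, hmin with
  | 0, θ, hθ, _ => exact absurd (Subsingleton.elim _ _) hθ
  | 1, θ, hθ, _ => exact absurd (Subsingleton.elim _ _) hθ
  | m + 2, θ, hθ, hmin =>
    have h1 : q1 _ (θ v) = 1 := hmin (m + 1) (by omega) ((q1 _).comp θ)
    have h2 : q2 _ (θ v) = 1 := hmin (m + 1) (by omega) ((q2 _).comp θ)
    exact ⟨m, θ, h1, h2, fun h3 => hθ (eq_one_of _ h1 h2 h3)⟩

end VerbalWidth
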