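import Mathlib

/-!
Unitriangular matrices over `ZMod p`.
-/

namespace VerbalWidth

open Matrix

/-- upper unitriangular matrices -/
def TM (p : ℕ) (n : ℕ) : Submonoid (Matrix (Fin n) (Fin n) (ZMod p)) where
  carrier := {M | ∀ i j, j ≤ i → M i j = if i = j then 1 else 0}
  one_mem' := fun i j _ => by rw [Matrix.one_apply]
  mul_mem' := by
    intro M N hM hN i j hij
    rw [Matrix.mul_apply, Finset.sum_eq_single i]
    · rw [hM i i le_rfl, if_pos rfl, one_mul, hN i j hij]
    · intro k _ hk
      rcases lt_or_gt_of_ne hk with h | h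
      · rw [hM i k h.le, if_neg (Ne.symm hk), zero_mul]
      · rw [hN k j (hij.trans h.le), if_neg (by rintro rfl; exact absurd hij (not_le.2 h)), mul_zero]
    · intro h; exact absurd (Finset.mem_univ i) h

variable {p : ℕ}

theorem TM_diag {n : ℕ} (M : TM p n) (i : Fin n) : M.1 i i = 1 := by
  rw [M.2 i i le_rfl, if_pos rfl]

theorem TM_lower {n : ℕ} (M : TM p n) {i j : Fin n} (h : j < i) : M.1 i j = 0 := by
  rw [M.2 i j h.le, if_neg h.ne']

theorem TM_isUnit [Fact p.Prime] {n : ℕ} (M : TM p n) : IsUnit M := by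
  have hdet : M.1.det = 1 := by
    rw [Matrix.det_of_isUpperTriangular]
    · exact Finset.prod_eq_one fun i _ => TM_diag M i
    · intro i j hij
      exact TM_lower M hij
  have hu : IsUnit M.1 := by
    rw [Matrix.isUnit_iff_isUnit_det, hdet]
    exact isUnit_one
  obtain ⟨u, hu⟩ := hu
  have h1 : u ^ orderOf u = 1 := pow_orderOf_eq_one u
  have h2 : orderOf u ≠ 0 := (orderOf_pos u).ne'
  have h3 : M ^ orderOf u = 1 := by
    apply Subtype.ext
    have := congrArg Units.val h1
    rw [Units.val_pow_eq_pow_val, hu] at this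
    exact this
  exact ⟨Units.ofPowEqOne M _ h3 h2, rfl⟩

/-- The group of upper unitriangular matrices. -/
abbrev UT (p : ℕ) (n : ℕ) : Type := (TM p n)ˣ

/-- deleting the last row and column -/
def pr1 (n : ℕ) : TM p (n + 1) →* TM p n where
  toFun M := ⟨M.1.submatrix Fin.castSucc Fin.castSucc, by
    intro i j hij
    rw [Matrix.submatrix_apply, M.2 _ _ (Fin.castSucc_le_castSucc_iff.2 hij)]
    simp only [Fin.castSucc_inj]⟩
  map_one' := by
    apply Subtype.ext
    ext i j
    simp [Matrix.one_apply]
  map_mul' := by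
    intro M N
    apply Subtype.ext
    ext i j
    change (M.1 * N.1) (Fin.castSucc i) (Fin.castSucc j) =
      (M.1.submatrix Fin.castSucc Fin.castSucc * N.1.submatrix Fin.castSucc Fin.castSucc) i j
    rw [Matrix.mul_apply, Matrix.mul_apply, Fin.sum_univ_castSucc,
      TM_lower N (Fin.castSucc_lt_last j), mul_zero, add_zero]
    rfl

/-- deleting the first row and column -/
def pr2 (n : ℕ) : TM p (n + 1) →* TM p n where
  toFun M := ⟨M.1.submatrix Fin.succ Fin.succ, by
    intro i j hij
    rw [Matrix.submatrix_apply, M.2 _ _ (Fin.succ_le_succ_iff.2 hij)]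
    simp only [Fin.succ_inj]⟩
  map_one' := by
    apply Subtype.ext
    ext i j
    simp [Matrix.one_apply]
  map_mul' := by
    intro M N
    apply Subtype.ext
    ext i j
    change (M.1 * N.1) (Fin.succ i) (Fin.succ j) =
      (M.1.submatrix Fin.succ Fin.succ * N.1.submatrix Fin.succ Fin.succ) i j
    rw [Matrix.mul_apply, Matrix.mul_apply, Fin.sum_univ_succ, TM_lower M (Fin.succ_pos i),
      zero_mul, zero_add]
    rfl

/-- the entries of a unitriangular matrix -/
def en {n : ℕ} (g : UT p n) (i j : Fin n) : ZMod p := g.val.1 i j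

theorem en_mul {n : ℕ} (g h : UT p n) (i j : Fin n) :
    en (g * h) i j = ∑ k, en g i k * en h k j := by
  rw [en, Units.val_mul, Submonoid.coe_mul, Matrix.mul_apply]
  rfl

theorem en_one {n : ℕ} (i j : Fin n) : en (1 : UT p n) i j = if i = j then 1 else 0 := by
  rw [en, Units.val_one, Submonoid.coe_one, Matrix.one_apply]

theorem en_diag {n : ℕ} (g : UT p n) (i : Fin n) : en g i i = 1 := TM_diag _ i

theorem en_lower {n : ℕ} (g : UT p n) {i j : Fin n} (h : j < i) : en g i j = 0 := TM_lower _ h

theorem UT_ext {n : ℕ} {g h : UT p n} (H : ∀ i j, en g i j = en h i j) : g = h := by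
  apply Units.ext
  apply Subtype.ext
  ext i j
  exact H i j

/-- the homomorphisms on groups -/
def q1 (n : ℕ) : UT p (n + 1) →* UT p n := Units.map (pr1 n)

/-- the homomorphisms on groups -/
def q2 (n : ℕ) : UT p (n + 1) →* UT p n := Units.map (pr2 n)

theorem en_q1 {n : ℕ} (g : UT p (n + 1)) (i j : Fin n) :
    en (q1 n g) i j = en g (Fin.castSucc i) (Fin.castSucc j) := rfl

theorem en_q2 {n : ℕ} (g : UT p (n + 1)) (i j : Fin n) :
    en (q2 n g) i j = en g (Fin.succ i) (Fin.succ j) := rfl

/-- the corner entry -/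
def cor {m : ℕ} (g : UT p (m + 2)) : ZMod p := en g 0 (Fin.last _)

/-- the entries of the first row -/
def rw1 {m : ℕ} (j : Fin m) (g : UT p (m + 1)) : ZMod p := en g 0 (Fin.succ j)

/-- the entries of the last column -/
def cl1 {m : ℕ} (j : Fin m) (g : UT p (m + 1)) : ZMod p := en g (Fin.castSucc j) (Fin.last _)

theorem rw1_one {m : ℕ} (j : Fin m) : rw1 j (1 : UT p (m + 1)) = 0 := by
  rw [rw1, en_one, if_neg (Fin.succ_ne_zero j).symm]

/-- the cocycle formula -/
theorem cor_mul {m : ℕ} (g h : UT p (m + 2)) :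
    cor (g * h) = cor g + cor h + ∑ j : Fin m, rw1 j (q1 _ g) * cl1 j (q2 _ h) := by
  rw [cor, en_mul, Fin.sum_univ_succ, Fin.sum_univ_castSucc, en_diag, one_mul]
  have h1 : (Fin.last m).succ = Fin.last (m + 1) := rfl
  rw [h1, en_diag, mul_one]
  have h2 : ∀ j : Fin m, en g 0 (Fin.castSucc j).succ *
      en h (Fin.castSucc j).succ (Fin.last (m + 1)) = rw1 j (q1 _ g) * cl1 j (q2 _ h) :=
    fun j => rfl
  rw [Finset.sum_congr rfl fun j _ => h2 j, cor, cor]
  ring

/-- An element is trivial if its two projections and its corner entry are. -/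
theorem eq_one_of {m : ℕ} (g : UT p (m + 2)) (h1 : q1 _ g = 1) (h2 : q2 _ g = 1)
    (h3 : cor g = 0) : g = 1 := by
  refine UT_ext fun i j => ?_
  rcases lt_or_ge j i with hij | hij
  · rw [en_lower _ hij, en_lower _ hij]
  · by_cases hi : i = 0
    · by_cases hj : j = Fin.last _
      · subst hi hj
        rw [en_one, if_neg (by simp [Fin.ext_iff])]
        exact h3
      · obtain ⟨j', rfl⟩ := Fin.exists_castSucc_eq.2 hj
        subst hi
        have h4 := en_q1 g 0 j'
        rw [h1, en_one] at h4
        rw [en_one]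
        have h5 : en g 0 (Fin.castSucc j') = en g (Fin.castSucc 0) (Fin.castSucc j') := rfl
        rw [h5, ← h4]
        simp [Fin.ext_iff]
    · obtain ⟨i', rfl⟩ := Fin.exists_succ_eq.2 hi
      obtain ⟨j', rfl⟩ := Fin.exists_succ_eq.2 (show j ≠ 0 from fun h => by
        subst h
        simp at hij)
      have h4 := en_q2 g i' j'
      rw [h2, en_one] at h4
      rw [← h4, en_one]
      simp [Fin.ext_iff]

instance : Subsingleton (UT p 0) := ⟨fun _ _ => UT_ext fun i => i.elim0⟩

instance : Subsingleton (UT p 1) := ⟨fun _ _ => UT_ext fun i j => by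
  rw [Subsingleton.elim j i, en_diag, en_diag]⟩

theorem UT_solvable : ∀ n : ℕ, Group.IsSolvable (UT p n)
  | 0 => inferInstance
  | 1 => inferInstance
  | m + 2 => by
    have := UT_solvable (m + 1)
    let f : UT p (m + 2) →* UT p (m + 1) × UT p (m + 1) := (q1 _).prod (q2 _)
    have hker : ∀ g ∈ f.ker, q1 _ g = 1 ∧ q2 _ g = 1 := by
      intro g hg
      exact ⟨congrArg Prod.fst hg, congrArg Prod.snd hg⟩
    have hcor : ∀ g ∈ f.ker, ∀ h, cor (g * h) = cor g + cor h := by
      intro g hg h
      rw [cor_mul, (hker g hg).1]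
      simp [rw1_one]
    have hab : Group.IsSolvable f.ker := by
      refine Group.isSolvable_of_comm ?_
      rintro ⟨g, hg⟩ ⟨h, hh⟩
      apply Subtype.ext
      change g * h = h * g
      have h1 : g * h * (h * g)⁻¹ = 1 := by
        refine eq_one_of _ ?_ ?_ ?_
        · simp [(hker g hg).1, (hker h hh).1]
        · simp [(hker g hg).2, (hker h hh).2]
        · have h2 := hcor (g * h * (h * g)⁻¹) (by
            refine mul_mem (mul_mem hg hh) (inv_mem (mul_mem hh hg))) (h * g)
          rw [inv_mul_cancel_right, hcor g hg, hcor h hh] at h2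
          have : cor (g * h * (h * g)⁻¹) = cor g + cor h - (cor h + cor g) := by
            rw [h2]; ring
          rw [this]; ring
      exact mul_inv_eq_one.1 h1
    exact Group.isSolvable_of_ker_le_range f.ker.subtype f (by rw [Subgroup.range_subtype])

end VerbalWidth
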