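import Pool.Agent.Lib.MP_c7b0ca_al_h12.Rank
import Pool.Agent.Lib.MP_c7b0ca_al.Defs

/-!
The two-generator soluble group with infinite verbal width.
-/

namespace VerbalWidth

open Matrix Pool.Agent.Lib.MP_c7b0ca_al
open scoped commutatorElement

variable {p m : ℕ}

/-- the unrestricted wreath product `KK ≀ ℤ` -/
abbrev WW (p m : ℕ) : Type := (KK p m) ≀ᵣ (Multiplicative ℤ)

/-! ### solvability -/

theorem pi_solvable {I H : Type*} [Group H] [h : Group.IsSolvable H] : Group.IsSolvable (I → H) := by
  obtain ⟨n, hn⟩ := h.solvable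
  refine ⟨⟨n, ?_⟩⟩
  rw [eq_bot_iff]
  intro f hf
  rw [Subgroup.mem_bot]
  funext i
  have h1 : (derivedSeries (I → H) n).map (Pi.evalMonoidHom (fun _ => H) i) ≤ derivedSeries H n :=
    map_derivedSeries_le_derivedSeries _ _
  have h2 := h1 ⟨f, hf, rfl⟩
  rw [hn, Subgroup.mem_bot] at h2
  exact h2

theorem WW_solvable : Group.IsSolvable (WW p m) := by
  have h0 : Group.IsSolvable (UT p (m + 2)) := UT_solvable _
  have h1 : Group.IsSolvable (ℕ → UT p (m + 2)) := pi_solvable
  have h2 : Group.IsSolvable (ℕ → ℕ → UT p (m + 2)) := pi_solvable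
  have h3 : Group.IsSolvable (KK p m) := inferInstance
  have h4 : Group.IsSolvable (Multiplicative ℤ → KK p m) := pi_solvable
  let f : (Multiplicative ℤ → KK p m) →* WW p m :=
    { toFun := fun x => ⟨x, 1⟩
      map_one' := rfl
      map_mul' := fun x y => by
        ext1
        · funext z
          simp
        · simp }
  refine Group.isSolvable_of_ker_le_range f
    (RegularWreathProduct.rightHom : WW p m →* Multiplicative ℤ) ?_
  intro w hw
  refine ⟨w.left, ?_⟩
  have : w.right = 1 := hw
  ext1
  · rfl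
  · exact this.symm

/-! ### the base group -/

theorem right_lift {α : Type*} (g : α → WW p m) (a : FreeGroup α)
    (ha : a ∈ commutator (FreeGroup α)) : (FreeGroup.lift g a).right = 1 := by
  have h := Abelianization.commutator_subset_ker
    ((RegularWreathProduct.rightHom : WW p m →* Multiplicative ℤ).comp (FreeGroup.lift g)) ha
  exact h

theorem left_mul (w w' : WW p m) (hw : w.right = 1) : (w * w').left 1 = w.left 1 * w'.left 1 := by
  simp [hw]

theorem left_inv (w : WW p m) (hw : w.right = 1) : (w⁻¹).left 1 = (w.left 1)⁻¹ := by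
  simp [hw]

theorem left_pow (w : WW p m) (hw : w.right = 1) (n : ℕ) :
    (w ^ n).left 1 = (w.left 1) ^ n ∧ (w ^ n).right = 1 := by
  induction n with
  | zero => exact ⟨by simp, by simp⟩
  | succ n ih =>
    refine ⟨?_, ?_⟩
    · rw [pow_succ, left_mul _ _ ih.2, ih.1, pow_succ]
    · rw [pow_succ, RegularWreathProduct.mul_right, ih.2, hw, one_mul]

/-- the generators of `F'' (F')^p` -/
def gens (p : ℕ) (α : Type*) : Set (FreeGroup α) :=
  {z | ∃ a ∈ commutator (FreeGroup α), ∃ b ∈ commutator (FreeGroup α), z = ⁅a, b⁆} ∪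
    {z | ∃ a ∈ commutator (FreeGroup α), z = a ^ p}

theorem value_low {α : Type*} (v : FreeGroup α) (hv : v ∈ Subgroup.closure (gens p α)) :
    ∃ C : ℕ, ∀ g : α → WW p m, (FreeGroup.lift g v).right = 1 ∧
      RankLe C (ck ((FreeGroup.lift g v).left 1)) := by
  induction hv using Subgroup.closure_induction with
  | mem z hz =>
    rcases hz with ⟨a, ha, b, hb, rfl⟩ | ⟨a, ha, rfl⟩
    · refine ⟨5 * m, fun g => ?_⟩
      have h1 := right_lift g a ha
      have h2 := right_lift g b hb
      rw [map_commutatorElement, commutatorElement_def]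
      refine ⟨by simp [h1, h2], ?_⟩
      rw [left_mul _ _ (by simp [h1, h2]), left_mul _ _ (by simp [h1, h2]), left_mul _ _ h1,
        left_inv _ h1, left_inv _ h2]
      exact ck_comm _ _
    · refine ⟨p * m, fun g => ?_⟩
      have h1 := right_lift g a ha
      rw [map_pow, (left_pow _ h1 p).1]
      exact ⟨(left_pow _ h1 p).2, ck_pow_p _⟩
  | one =>
    refine ⟨0, fun g => ⟨by simp, ?_⟩⟩
    rw [map_one]
    exact RankLe.zero.congr fun s t => ck_one s t
  | mul x y _ _ hx hy =>
    obtain ⟨C, hC⟩ := hx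
    obtain ⟨D, hD⟩ := hy
    refine ⟨C + D + m, fun g => ?_⟩
    obtain ⟨h1, h2⟩ := hC g
    obtain ⟨h3, h4⟩ := hD g
    rw [map_mul]
    refine ⟨by rw [RegularWreathProduct.mul_right, h1, h3, one_mul], ?_⟩
    rw [left_mul _ _ h1]
    exact ck_mul_low' h2 h4
  | inv x _ hx =>
    obtain ⟨C, hC⟩ := hx
    refine ⟨C + m, fun g => ?_⟩
    obtain ⟨h1, h2⟩ := hC g
    rw [map_inv]
    refine ⟨by rw [RegularWreathProduct.inv_right, h1, inv_one], ?_⟩
    rw [left_inv _ h1]
    exact ck_inv_low h2

/-- products of values have bounded rank -/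
theorem prod_low {α : Type*} (v : FreeGroup α) (C : ℕ)
    (hC : ∀ g : α → WW p m, (FreeGroup.lift g v).right = 1 ∧
      RankLe C (ck ((FreeGroup.lift g v).left 1))) (l : List (WW p m))
    (hl : ∀ w ∈ l, (∃ g, FreeGroup.lift g v = w) ∨ (∃ g, FreeGroup.lift g v = w⁻¹)) :
    l.prod.right = 1 ∧ RankLe (l.length * (C + 2 * m)) (ck (l.prod.left 1)) := by
  induction l with
  | nil =>
    refine ⟨rfl, ?_⟩
    exact (RankLe.zero' _).congr fun s t => ck_one s t
  | cons w l ih =>
    obtain ⟨h1, h2⟩ := ih fun w' hw' => hl w' (List.mem_cons_of_mem _ hw')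
    have h3 : w.right = 1 ∧ RankLe (C + m) (ck (w.left 1)) := by
      rcases hl w List.mem_cons_self with ⟨g, hg⟩ | ⟨g, hg⟩
      · obtain ⟨h4, h5⟩ := hC g
        rw [hg] at h4 h5
        exact ⟨h4, h5.mono (by omega)⟩
      · obtain ⟨h4, h5⟩ := hC g
        rw [hg] at h4 h5
        have h6 : w.right = 1 := by
          rw [RegularWreathProduct.inv_right, inv_eq_one] at h4
          exact h4
        refine ⟨h6, ?_⟩
        rw [left_inv _ h6] at h5
        have h7 := ck_inv_low h5
        rw [inv_inv] at h7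
        exact h7
    rw [List.prod_cons]
    refine ⟨by rw [RegularWreathProduct.mul_right, h3.1, h1, one_mul], ?_⟩
    rw [left_mul _ _ h3.1]
    refine (ck_mul_low' h3.2 h2).mono ?_
    rw [List.length_cons, Nat.succ_mul]
    ring_nf
    omega

/-! ### the elements of large rank -/

section

variable {k : ℕ} (θ : FreeGroup (Fin k) →* UT p (m + 2))

/-- the element `k_a^{(t)}` -/
def ka (a : Fin k) (t : ℕ) : KK p m :=
  ⟨fun s' t' => sc (if s' = t then 1 else 0) (if t' = t then 1 else 0) (θ (FreeGroup.of a)),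
    fun _ _ _ => q1_sc _ _ _ _, fun _ _ _ => q2_sc _ _ _ _⟩

theorem lift_ka (v : FreeGroup (Fin k)) (t s' t' : ℕ) :
    (FreeGroup.lift (fun a => ka θ a t) v).1 s' t' =
      sc (if s' = t then 1 else 0) (if t' = t then 1 else 0) (θ v) := by
  have h : (ev s' t').comp (FreeGroup.lift (fun a => ka θ a t)) =
      (sc (if s' = t then 1 else 0) (if t' = t then 1 else 0)).comp θ := by
    refine FreeGroup.ext_hom _ _ fun a => ?_
    rw [MonoidHom.comp_apply, FreeGroup.lift_apply_of]
    rfl
  exact DFunLike.congr_fun h v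

/-- the elements of large rank -/
def zz (v : FreeGroup (Fin k)) : ℕ → KK p m
  | 0 => 1
  | N + 1 => zz v N * FreeGroup.lift (fun a => ka θ a N) v

theorem zz_spec (v : FreeGroup (Fin k)) (h1 : q1 _ (θ v) = 1) (h2 : q2 _ (θ v) = 1) :
    ∀ N s t, q1 _ ((zz θ v N).1 s t) = 1 ∧ q2 _ ((zz θ v N).1 s t) = 1 ∧
      ck (zz θ v N) s t = if s = t ∧ s < N then cor (θ v) else 0 := by
  intro N
  induction N with
  | zero =>
    intro s t
    refine ⟨map_one (q1 _), map_one (q2 _), ?_⟩
    rw [if_neg (by omega)]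
    exact ck_one s t
  | succ N ih =>
    intro s t
    obtain ⟨i1, i2, i3⟩ := ih s t
    have e : (zz θ v (N + 1)).1 s t = (zz θ v N).1 s t *
        sc (if s = N then 1 else 0) (if t = N then 1 else 0) (θ v) := by
      rw [← lift_ka]
      rfl
    refine ⟨?_, ?_, ?_⟩
    · rw [e, map_mul, i1, one_mul]
      exact q1_sc_one _ _ _ h1
    · rw [e, map_mul, i2, one_mul]
      exact q2_sc_one _ _ _ h2
    · rw [ck, e, cor_mul, i1]
      simp only [rw1_one, zero_mul, Finset.sum_const_zero, add_zero]
      rw [cor_sc]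
      have i3' : cor ((zz θ v N).1 s t) = if s = t ∧ s < N then cor (θ v) else 0 := i3
      rw [i3']
      by_cases hs : s = N
      · by_cases ht : t = N
        · subst hs ht
          simp
        · have : ¬ (s = t) := by omega
          simp [ht, this]
      · by_cases hst : s = t
        · subst hst
          by_cases hlt : s < N
          · have : s < N + 1 := by omega
            simp [hs, hlt, this]
          · have : ¬ s < N + 1 := by omega
            simp [hs, hlt, this]
        · simp [hs, hst]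

end

end VerbalWidth
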